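import Pool.Agent.V5helper32.CM.Stm2

/-!
# Job INJ of project CM: injectivity in PBW, from the Dunkl representation
-/

namespace Pool.Agent.V5helper1.CM

open Pool.Agent.V5helper32.CM MvPolynomial
open scoped TensorProduct

variable {n : ℕ}

/-- all coefficients of degree at least `d` vanish -/
noncomputable def ltS (n d : ℕ) : Submodule (Kf n) (Un n) where
  carrier := {P | ∀ k : Fin n →₀ ℕ, d ≤ k.degree → coeff k P = 0}
  add_mem' := by
    intro a b ha hb k hk
    rw [coeff_add, ha k hk, hb k hk, add_zero]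
  zero_mem' := by
    intro k _
    exact coeff_zero k
  smul_mem' := by
    intro c P hP k hk
    rw [coeff_smul, hP k hk, smul_zero]

theorem mem_ltS {d : ℕ} {P : Un n} :
    P ∈ ltS n d ↔ ∀ k : Fin n →₀ ℕ, d ≤ k.degree → coeff k P = 0 := Iff.rfl

theorem ltS_mono {d d' : ℕ} (h : d ≤ d') {P : Un n} (hP : P ∈ ltS n d) : P ∈ ltS n d' :=
  fun k hk => hP k (h.trans hk)

theorem C_mul_mem {d : ℕ} (c : Kf n) {P : Un n} (hP : P ∈ ltS n d) : C c * P ∈ ltS n d := by
  rw [C_mul']
  exact (ltS n d).smul_mem c hP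

theorem X_mul_mem {d : ℕ} (a : Fin n) {P : Un n} (hP : P ∈ ltS n d) :
    X a * P ∈ ltS n (d + 1) := by
  intro k hk
  rw [coeff_X_mul']
  split_ifs with ha
  · apply hP
    have h1 : k = (k - Finsupp.single a 1) + Finsupp.single a 1 := by
      rw [tsub_add_cancel_of_le]
      rw [Finsupp.single_le_iff]
      exact Nat.one_le_iff_ne_zero.2 (Finsupp.mem_support_iff.1 ha)
    have h2 : k.degree = (k - Finsupp.single a 1).degree + 1 := by
      conv_lhs => rw [h1]
      rw [map_add, Finsupp.degree_single]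
    omega
  · rfl

theorem monomial_mem {d : ℕ} {k : Fin n →₀ ℕ} (hk : k.degree < d) (c : Kf n) :
    (monomial k c : Un n) ∈ ltS n d := by
  intro k' hk'
  rw [coeff_monomial, if_neg]
  rintro rfl
  omega

section dunkl

variable {W : Type} [Group W] [Fintype W] {ρ : W →* Gl n} {c : W → ℂ}

theorem e_monomial (DD : DunklData ρ c) (w : W) (k : Fin n →₀ ℕ) (a : Kf n) :
    (DD.e w (monomial k a)).IsHomogeneous k.degree := by
  rw [monomial_eq, map_mul]
  obtain ⟨k', hk'⟩ := DD.eC w a
  rw [hk']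
  have h1 : (DD.e w (k.prod fun n e => X n ^ e)).IsHomogeneous k.degree := by
    rw [Finsupp.prod, map_prod]
    have : k.degree = ∑ i ∈ k.support, 1 * k i := by
      rw [Finsupp.degree_apply]
      simp
    rw [this]
    refine IsHomogeneous.prod _ _ _ fun i _ => ?_
    rw [map_pow]
    apply IsHomogeneous.pow
    rw [DD.eX]
    refine IsHomogeneous.sum _ _ _ fun b _ => ?_
    have := (isHomogeneous_C (Fin n) (algebraMap ℂ (Kf n) ((ρ w).val b i))).mul
      (isHomogeneous_X (Kf n) b)
    rwa [zero_add] at this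
  have := (isHomogeneous_C (Fin n) k').mul h1
  rwa [zero_add] at this

theorem e_mem (DD : DunklData ρ c) (w : W) {d : ℕ} {P : Un n} (hP : P ∈ ltS n d) :
    DD.e w P ∈ ltS n d := by
  rw [P.as_sum, map_sum]
  refine (ltS n d).sum_mem fun k hk => ?_
  intro k' hk'
  by_contra h
  have h1 := e_monomial DD w k (coeff k P) h
  have h2 : k.degree < d := by
    by_contra h3
    exact (mem_support_iff.1 hk) (hP k (not_lt.1 h3))
  have h3 : k'.degree = k.degree := by
    rw [← h1, Finsupp.degree_eq_weight_one]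
    rfl
  omega

theorem indep (hρ : Function.Injective ρ) (DD : DunklData ρ c) (B : W → Un n)
    (h : ∑ w, LinearMap.mulLeft ℂ (B w) ∘ₗ (DD.e w).toLinearMap = 0) : ∀ w, B w = 0 := by
  have hinj : Function.Injective fun w => ((DD.e w : Un n →+* Un n) : Un n →* Un n) := by
    intro w w' hw
    apply hρ
    apply Units.ext
    ext b a
    have h1 : DD.e w (X a) = DD.e w' (X a) := DFunLike.congr_fun hw (X a)
    rw [DD.eX, DD.eX] at h1
    have h2 := congrArg (coeff (Finsupp.single b 1)) h1
    simp only [coeff_sum, coeff_C_mul, coeff_X] at h2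
    have h3 : ∀ (w : W), (∑ x, algebraMap ℂ (Kf n) ((ρ w).val x a) *
        if Finsupp.single x 1 = Finsupp.single b 1 then 1 else 0) =
        algebraMap ℂ (Kf n) ((ρ w).val b a) := by
      intro w
      rw [Finset.sum_eq_single b]
      · simp
      · intro x _ hx
        rw [if_neg, mul_zero]
        intro hx'
        exact hx (Finsupp.single_left_injective one_ne_zero hx')
      · simp
    rw [h3, h3] at h2
    exact (algebraMap ℂ (Kf n)).injective h2
  have hli := (linearIndependent_monoidHom (Un n) (Un n)).comp _ hinj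
  rw [Fintype.linearIndependent_iff] at hli
  apply hli
  funext x
  have h1 := LinearMap.congr_fun h x
  simpa using h1

/-- the action of polynomials in `x` -/
theorem F_i (DD : DunklData ρ c) {H : Type} [Ring H] [Algebra ℂ H] (R : ChRel ρ c H)
    (F : H →ₐ[ℂ] Module.End ℂ (Un n)) (hx : ∀ a, F (R.x a) = DD.R.x a)
    (i : MvPolynomial (Fin n) ℂ →ₐ[ℂ] H) (hi : ∀ a, i (X a) = R.x a)
    (f : MvPolynomial (Fin n) ℂ) :
    F (i f) = LinearMap.mulLeft ℂ (C (algebraMap (MvPolynomial (Fin n) ℂ) (Kf n) f) : Un n) := by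
  let g : MvPolynomial (Fin n) ℂ →ₐ[ℂ] Un n :=
    (IsScalarTower.toAlgHom ℂ (Kf n) (Un n)).comp
      (IsScalarTower.toAlgHom ℂ (MvPolynomial (Fin n) ℂ) (Kf n))
  have h : F.comp i = (Algebra.lmul ℂ (Un n)).comp g := by
    apply MvPolynomial.algHom_ext
    intro a
    show F (i (X a)) = LinearMap.mulLeft ℂ
      (C (algebraMap (MvPolynomial (Fin n) ℂ) (Kf n) (X a)) : Un n)
    rw [hi, hx, DD.Rx]
  exact DFunLike.congr_fun h f

/-- composition of `e w` with a multiplication -/
theorem e_comp (DD : DunklData ρ c) (w : W) (P : Un n) :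
    (DD.e w).toLinearMap ∘ₗ LinearMap.mulLeft ℂ P =
      LinearMap.mulLeft ℂ (DD.e w P) ∘ₗ (DD.e w).toLinearMap := by
  ext x
  simp

theorem e_e (DD : DunklData ρ c) (w v : W) :
    (DD.e w).toLinearMap ∘ₗ (DD.e v).toLinearMap = (DD.e (w * v)).toLinearMap := by
  ext x
  simp [map_mul]

/-- `f e_w (∑ P_v e_v)` -/
theorem mul_sum (DD : DunklData ρ c) (Q : Un n) (w : W) (P : W → Un n) :
    (LinearMap.mulLeft ℂ Q ∘ₗ (DD.e w).toLinearMap) ∘ₗ
      (∑ v, LinearMap.mulLeft ℂ (P v) ∘ₗ (DD.e v).toLinearMap) =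
    ∑ u, LinearMap.mulLeft ℂ (Q * DD.e w (P (w⁻¹ * u))) ∘ₗ (DD.e u).toLinearMap := by
  refine LinearMap.ext fun x => ?_
  simp only [LinearMap.comp_apply, LinearMap.sum_apply, LinearMap.mulLeft_apply,
    AlgEquiv.toLinearMap_apply, map_sum]
  rw [← Equiv.sum_comp (Equiv.mulLeft w) (fun u => Q * DD.e w (P (w⁻¹ * u)) * DD.e u x)]
  refine Finset.sum_congr rfl fun v _ => ?_
  simp [map_mul, mul_assoc]

theorem mono_succ (m : Fin n →₀ ℕ) (d : ℕ) (h : m.degree = d + 1) :
    ∃ (a : Fin n) (m' : Fin n →₀ ℕ), m'.degree = d ∧ m = m' + Finsupp.single a 1 := by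
  have h0 : m ≠ 0 := by
    rintro rfl
    rw [map_zero] at h
    omega
  obtain ⟨a, ha⟩ := Finsupp.support_nonempty_iff.2 h0
  have h1 : m = (m - Finsupp.single a 1) + Finsupp.single a 1 := by
    rw [tsub_add_cancel_of_le]
    rw [Finsupp.single_le_iff]
    exact Nat.one_le_iff_ne_zero.2 (Finsupp.mem_support_iff.1 ha)
  refine ⟨a, m - Finsupp.single a 1, ?_, h1⟩
  have h2 : m.degree = (m - Finsupp.single a 1).degree + 1 := by
    conv_lhs => rw [h1]
    rw [map_add, Finsupp.degree_single]
  omega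

open Classical in
/-- the action of a monomial in `y` -/
theorem F_j (DD : DunklData ρ c) {H : Type} [Ring H] [Algebra ℂ H] (R : ChRel ρ c H)
    (F : H →ₐ[ℂ] Module.End ℂ (Un n)) (hy : ∀ a, F (R.y a) = DD.R.y a)
    (j : MvPolynomial (Fin n) ℂ →ₐ[ℂ] H) (hj : ∀ a, j (X a) = R.y a) (d : ℕ) :
    ∀ (m : Fin n →₀ ℕ), m.degree = d → ∃ P : W → Un n,
      F (j (monomial m 1)) = ∑ v, LinearMap.mulLeft ℂ (P v) ∘ₗ (DD.e v).toLinearMap ∧
      ∀ v, P v - (if v = 1 then (monomial m 1 : Un n) else 0) ∈ ltS n d := by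
  induction d with
  | zero =>
    intro m hm
    have hm0 : m = 0 := by
      rwa [Finsupp.degree_eq_zero_iff] at hm
    subst hm0
    have h1 : ∀ (R : Type) [CommRing R], (monomial (0 : Fin n →₀ ℕ) (1 : R)) = 1 :=
      fun R _ => rfl
    refine ⟨fun v => if v = 1 then 1 else 0, ?_, ?_⟩
    · rw [h1, map_one, map_one]
      rw [Finset.sum_eq_single 1]
      · ext x
        simp
      · intro v _ hv
        ext x
        simp [hv]
      · simp
    · intro v
      rw [h1, sub_self]
      exact zero_mem _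
  | succ d ih =>
    intro m hm
    obtain ⟨a, m', hm', rfl⟩ := mono_succ m d hm
    obtain ⟨P, hP, hP'⟩ := ih m' hm'
    have hPd : ∀ v, P v ∈ ltS n (d + 1) := by
      intro v
      have h1 := ltS_mono (Nat.le_succ d) (hP' v)
      have h2 : (if v = 1 then (monomial m' 1 : Un n) else 0) ∈ ltS n (d + 1) := by
        split_ifs
        · exact monomial_mem (by omega) _
        · exact zero_mem _
      have := add_mem h1 h2
      rwa [sub_add_cancel] at this
    refine ⟨fun u => X a * P u + ∑ w, C (DD.A w a) * DD.e w (P (w⁻¹ * u)), ?_, ?_⟩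
    · have h1 : (monomial (m' + Finsupp.single a 1) (1 : ℂ)) =
          X a * monomial m' 1 := by
        rw [X, monomial_mul, one_mul, add_comm]
      rw [h1, map_mul, map_mul, hj, hy, DD.Ry, hP, add_mul]
      have h2 : LinearMap.mulLeft ℂ (X a : Un n) *
          ∑ v, LinearMap.mulLeft ℂ (P v) ∘ₗ (DD.e v).toLinearMap =
          ∑ v, LinearMap.mulLeft ℂ (X a * P v) ∘ₗ (DD.e v).toLinearMap := by
        rw [Finset.mul_sum]
        refine Finset.sum_congr rfl fun v _ => ?_
        refine LinearMap.ext fun x => ?_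
        simp only [Module.End.mul_apply, LinearMap.comp_apply, LinearMap.mulLeft_apply, mul_assoc]
      rw [h2, Finset.sum_mul]
      have h3 : ∀ w, (LinearMap.mulLeft ℂ (C (DD.A w a) : Un n) ∘ₗ (DD.e w).toLinearMap) *
          ∑ v, LinearMap.mulLeft ℂ (P v) ∘ₗ (DD.e v).toLinearMap =
          ∑ u, LinearMap.mulLeft ℂ (C (DD.A w a) * DD.e w (P (w⁻¹ * u))) ∘ₗ
            (DD.e u).toLinearMap := fun w => mul_sum DD _ w P
      rw [Finset.sum_congr rfl fun w _ => h3 w, Finset.sum_comm, ← Finset.sum_add_distrib]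
      refine Finset.sum_congr rfl fun u _ => ?_
      refine LinearMap.ext fun x => ?_
      simp only [LinearMap.add_apply, LinearMap.comp_apply, LinearMap.sum_apply,
        LinearMap.mulLeft_apply, AlgEquiv.toLinearMap_apply, add_mul, Finset.sum_mul]
    · intro v
      have h1 : (if v = 1 then (monomial (m' + Finsupp.single a 1) 1 : Un n) else 0) =
          X a * (if v = 1 then (monomial m' 1 : Un n) else 0) := by
        split_ifs
        · rw [X, monomial_mul, one_mul, add_comm]
        · rw [mul_zero]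
      rw [h1]
      have h2 : X a * P v + ∑ w, C (DD.A w a) * DD.e w (P (w⁻¹ * v)) -
          X a * (if v = 1 then (monomial m' 1 : Un n) else 0) =
          X a * (P v - (if v = 1 then (monomial m' 1 : Un n) else 0)) +
            ∑ w, C (DD.A w a) * DD.e w (P (w⁻¹ * v)) := by ring
      rw [h2]
      refine add_mem (X_mul_mem a (hP' v)) ((ltS n (d + 1)).sum_mem fun w _ => ?_)
      exact C_mul_mem _ (e_mem DD w (hPd _))

omit [Fintype W] in
theorem mu_tmul {H : Type} [Ring H] [Algebra ℂ H] (i j : MvPolynomial (Fin n) ℂ →ₐ[ℂ] H)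
    (u : W →* H) (w : W) (f g : MvPolynomial (Fin n) ℂ) :
    mu i j u w (f ⊗ₜ[ℂ] g) = i f * u w * j g := by
  simp [mu]

end dunkl

/-- the inverse image of a polynomial `C k` under `e w` -/
theorem t_INJ : S_INJ := by
  classical
  intro n W _ _ ρ hρ c DD H _ _ R F hx hy hu i j hi hj
  -- the map as a linear map
  let L : (W → MvPolynomial (Fin n) ℂ ⊗[ℂ] MvPolynomial (Fin n) ℂ) →ₗ[ℂ]
      Module.End ℂ (Un n) :=
    F.toLinearMap ∘ₗ ∑ w, (mu i j R.u w) ∘ₗ LinearMap.proj w
  have hL : ∀ q, L q = F (∑ w, mu i j R.u w (q w)) := by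
    intro q
    simp [L]
  suffices h : ∀ q, L q = 0 → q = 0 by
    intro q q' hqq
    have h1 : L (q - q') = 0 := by
      rw [map_sub, hL, hL]
      exact sub_eq_zero.2 hqq
    exact sub_eq_zero.1 (h _ h1)
  intro q hq
  rw [hL] at hq
  -- coordinates
  let E := TensorProduct.equivFinsuppOfBasisRight (M := MvPolynomial (Fin n) ℂ)
    (MvPolynomial.basisMonomials (Fin n) ℂ)
  let f : W → (Fin n →₀ ℕ) →₀ MvPolynomial (Fin n) ℂ := fun w => E (q w)
  have hqf : ∀ w, q w = (f w).sum fun m a => a ⊗ₜ[ℂ] (monomial m 1) := by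
    intro w
    have h1 : q w = E.symm (f w) := by simp [f]
    rw [h1]
    simp [E, TensorProduct.equivFinsuppOfBasisRight_symm_apply]
  suffices hf : ∀ w m, f w m = 0 by
    funext w
    rw [hqf w]
    have : f w = 0 := by
      ext1 m
      exact hf w m
    rw [this, Finsupp.sum_zero_index]
    rfl
  choose P hP hP' using fun m => F_j DD R F hy j hj (Finsupp.degree m) m rfl
  -- a common support
  let S : Finset (Fin n →₀ ℕ) := Finset.univ.biUnion fun w => (f w).support
  have hS : ∀ w m, m ∉ S → f w m = 0 := by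
    intro w m hm
    by_contra h
    exact hm (Finset.mem_biUnion.2 ⟨w, Finset.mem_univ _, Finsupp.mem_support_iff.2 h⟩)
  have hsum : ∀ w, (f w).sum (fun m a => a ⊗ₜ[ℂ] (monomial m 1 : MvPolynomial (Fin n) ℂ)) =
      ∑ m ∈ S, f w m ⊗ₜ[ℂ] (monomial m 1) := by
    intro w
    apply Finsupp.sum_of_support_subset
    · exact Finset.subset_biUnion_of_mem (fun w => (f w).support) (Finset.mem_univ w)
    · intro m _
      exact TensorProduct.zero_tmul _ _
  let g : W → (Fin n →₀ ℕ) → Kf n := fun w m => algebraMap (MvPolynomial (Fin n) ℂ) (Kf n) (f w m)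
  let B : W → Un n := fun u => ∑ w, ∑ m ∈ S, C (g w m) * DD.e w (P m (w⁻¹ * u))
  have hB : ∑ u, LinearMap.mulLeft ℂ (B u) ∘ₗ (DD.e u).toLinearMap = 0 := by
    rw [← hq, map_sum]
    have h1 : ∀ w, F (mu i j R.u w (q w)) = ∑ m ∈ S,
        ∑ u, LinearMap.mulLeft ℂ (C (g w m) * DD.e w (P m (w⁻¹ * u))) ∘ₗ
          (DD.e u).toLinearMap := by
      intro w
      rw [hqf, hsum, map_sum, map_sum]
      refine Finset.sum_congr rfl fun m _ => ?_
      rw [mu_tmul, map_mul, map_mul, F_i DD R F hx i hi, hu, DD.Ru, hP]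
      exact mul_sum DD _ w (P m)
    rw [Finset.sum_congr rfl fun w _ => h1 w]
    have h2 : ∀ u, LinearMap.mulLeft ℂ (B u) ∘ₗ (DD.e u).toLinearMap =
        ∑ w, ∑ m ∈ S, LinearMap.mulLeft ℂ (C (g w m) * DD.e w (P m (w⁻¹ * u))) ∘ₗ
          (DD.e u).toLinearMap := by
      intro u
      refine LinearMap.ext fun x => ?_
      simp only [LinearMap.comp_apply, LinearMap.sum_apply, LinearMap.mulLeft_apply,
        AlgEquiv.toLinearMap_apply, B, Finset.sum_mul]
    rw [Finset.sum_congr rfl fun u _ => h2 u, Finset.sum_comm]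
    refine Finset.sum_congr rfl fun w _ => ?_
    rw [Finset.sum_comm]
  have hB0 := indep hρ DD B hB
  -- descending induction
  have key : ∀ d : ℕ, (∀ w m, d + 1 ≤ Finsupp.degree m → f w m = 0) →
      ∀ w m, d ≤ Finsupp.degree m → f w m = 0 := by
    intro d hd u m₀ hm₀
    rcases Nat.lt_or_ge d (Finsupp.degree m₀) with h | h
    · exact hd u m₀ h
    have hdm : Finsupp.degree m₀ = d := le_antisymm h hm₀
    -- the part of degree d
    have h1 : (∑ m ∈ S, C (g u m) * DD.e u (monomial m 1)) ∈ ltS n d := by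
      have h2 : B u - ∑ m ∈ S, C (g u m) * DD.e u (monomial m 1) =
          ∑ w, ∑ m ∈ S, C (g w m) * DD.e w (P m (w⁻¹ * u) -
            (if w⁻¹ * u = 1 then (monomial m 1 : Un n) else 0)) := by
        have h3 : ∀ w, ∑ m ∈ S, C (g w m) * DD.e w (P m (w⁻¹ * u) -
            (if w⁻¹ * u = 1 then (monomial m 1 : Un n) else 0)) =
            ∑ m ∈ S, C (g w m) * DD.e w (P m (w⁻¹ * u)) -
              ∑ m ∈ S, C (g w m) * DD.e w (if w⁻¹ * u = 1 then (monomial m 1 : Un n) else 0) := by
          intro w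
          rw [← Finset.sum_sub_distrib]
          refine Finset.sum_congr rfl fun m _ => ?_
          rw [map_sub, mul_sub]
        rw [Finset.sum_congr rfl fun w _ => h3 w, Finset.sum_sub_distrib]
        congr 1
        rw [Finset.sum_eq_single u]
        · simp
        · intro w _ hw
          have : w⁻¹ * u ≠ 1 := by
            intro h4
            exact hw (inv_mul_eq_one.1 h4)
          simp [this]
        · simp
      rw [hB0 u, zero_sub] at h2
      have h4 := neg_mem (s := ltS n d) (x := -∑ m ∈ S, C (g u m) * DD.e u (monomial m 1)) ?_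
      · rwa [neg_neg] at h4
      rw [h2]
      refine (ltS n d).sum_mem fun w _ => (ltS n d).sum_mem fun m _ => ?_
      rcases Nat.lt_or_ge (Finsupp.degree m) (d + 1) with h5 | h5
      · exact C_mul_mem _ (e_mem DD w (ltS_mono (Nat.lt_succ_iff.1 h5) (hP' m _)))
      · simp only [g, hd w m h5, map_zero, zero_mul]
        exact zero_mem _
    have h2 := e_mem DD u⁻¹ h1
    rw [map_sum] at h2
    choose k' hk' using fun m => DD.eC u⁻¹ (g u m)
    have h3 : ∀ m, DD.e u⁻¹ (C (g u m) * DD.e u (monomial m 1)) = monomial m (k' m) := by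
      intro m
      rw [map_mul, hk']
      have : DD.e u⁻¹ (DD.e u (monomial m 1)) = monomial m 1 := by
        rw [← AlgEquiv.mul_apply, ← map_mul, inv_mul_cancel, map_one]
        rfl
      rw [this, C_mul_monomial, mul_one]
    rw [Finset.sum_congr rfl fun m _ => h3 m] at h2
    by_cases hmS : m₀ ∈ S
    · have h4 := h2 m₀ hdm.ge
      rw [coeff_sum, Finset.sum_eq_single m₀] at h4
      · rw [coeff_monomial, if_pos rfl] at h4
        have h5 : DD.e u⁻¹ (C (g u m₀)) = 0 := by rw [hk', h4, map_zero]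
        have h6 : (C (g u m₀) : Un n) = 0 := by
          rwa [EmbeddingLike.map_eq_zero_iff] at h5
        have h7 : g u m₀ = 0 := C_injective _ _ (by rw [h6, map_zero])
        exact (IsFractionRing.injective (MvPolynomial (Fin n) ℂ) (Kf n))
          (by rw [map_zero]; exact h7)
      · intro m _ hm
        rw [coeff_monomial, if_neg hm]
      · intro h; exact absurd hmS h
    · exact hS u m₀ hmS
  obtain ⟨D, hD⟩ : ∃ D : ℕ, ∀ m ∈ S, Finsupp.degree m < D := by
    refine ⟨S.sup Finsupp.degree + 1, fun m hm => Nat.lt_succ_of_le (Finset.le_sup hm)⟩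
  have hall : ∀ k : ℕ, k ≤ D → ∀ w m, D - k ≤ Finsupp.degree m → f w m = 0 := by
    intro k
    induction k with
    | zero =>
      intro _ w m hm
      apply hS
      intro hmS
      have := hD m hmS
      omega
    | succ k ih =>
      intro hk
      have h1 : D - (k + 1) + 1 = D - k := by omega
      exact key (D - (k + 1)) (by rw [h1]; exact ih (by omega))
  intro w m
  exact hall D le_rfl w m (by omega)

end Pool.Agent.V5helper1.CM
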